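import Mathlib
import Pool.Agent.N852.MM.Stm

/-!
Project MM: the number of integer points of a simplex.
-/

namespace Pool.Agent.N717.MM

set_option linter.unusedSectionVars false

open Filter Topology MeasureTheory Pointwise

/-- the simplex -/
def sx {ι : Type} [Fintype ι] (a : ι → ℕ) : Set (ι → ℝ) :=
  {x | (∀ v, 0 ≤ x v) ∧ ∑ v, (a v : ℝ) * x v ≤ 1}

theorem sx_closed {ι : Type} [Fintype ι] (a : ι → ℕ) : IsClosed (sx a) := by
  have h : sx a = (⋂ v, {x : ι → ℝ | 0 ≤ x v}) ∩ {x | ∑ v, (a v : ℝ) * x v ≤ 1} := by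
    ext x; simp [sx]
  rw [h]
  refine IsClosed.inter (isClosed_iInter fun v => isClosed_le (by fun_prop) (by fun_prop))
    (isClosed_le (by fun_prop) (by fun_prop))

theorem sx_convex {ι : Type} [Fintype ι] (a : ι → ℕ) : Convex ℝ (sx a) := by
  intro x hx y hy p q hp hq hpq
  refine ⟨fun v => ?_, ?_⟩
  · have h1 := hx.1 v
    have h2 := hy.1 v
    simp only [Pi.add_apply, Pi.smul_apply, smul_eq_mul]
    positivity
  · have h1 := hx.2
    have h2 := hy.2
    have : ∑ v, (a v : ℝ) * (p • x + q • y) v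
        = p * ∑ v, (a v : ℝ) * x v + q * ∑ v, (a v : ℝ) * y v := by
      rw [Finset.mul_sum, Finset.mul_sum, ← Finset.sum_add_distrib]
      refine Finset.sum_congr rfl fun v _ => ?_
      simp only [Pi.add_apply, Pi.smul_apply, smul_eq_mul]
      ring
    rw [this]
    nlinarith

theorem sx_le {ι : Type} [Fintype ι] (a : ι → ℕ) (ha : ∀ i, 1 ≤ a i) (x : ι → ℝ) (hx : x ∈ sx a)
    (v : ι) : x v ≤ 1 := by
  have h1 : (a v : ℝ) * x v ≤ ∑ w, (a w : ℝ) * x w :=
    Finset.single_le_sum (f := fun w => (a w : ℝ) * x w)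
      (fun w _ => mul_nonneg (Nat.cast_nonneg _) (hx.1 w)) (Finset.mem_univ v)
  have h2 : (1 : ℝ) ≤ a v := by exact_mod_cast ha v
  have h3 := hx.2
  have h4 := hx.1 v
  nlinarith

theorem sx_bdd {ι : Type} [Fintype ι] (a : ι → ℕ) (ha : ∀ i, 1 ≤ a i) :
    Bornology.IsBounded (sx a) := by
  refine (Metric.isBounded_Icc (0 : ι → ℝ) 1).subset fun x hx => ⟨fun v => hx.1 v, fun v => ?_⟩
  exact sx_le a ha x hx v

theorem sx_mono {ι : Type} [Fintype ι] (a : ι → ℕ) (x y : ℝ) (hx : 0 < x) (hxy : x ≤ y) :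
    x • sx a ⊆ y • sx a := by
  intro z hz
  have hy : 0 < y := lt_of_lt_of_le hx hxy
  rw [Set.mem_smul_set_iff_inv_smul_mem₀ hx.ne'] at hz
  rw [Set.mem_smul_set_iff_inv_smul_mem₀ hy.ne']
  have key : y⁻¹ • z = (x / y) • (x⁻¹ • z) := by
    rw [smul_smul]; congr 1; field_simp
  rw [key]
  have h0 : 0 ≤ x / y := by positivity
  have h1 : x / y ≤ 1 := by rw [div_le_one hy]; exact hxy
  refine ⟨fun v => mul_nonneg h0 (hz.1 v), ?_⟩
  have h2 : ∑ v, (a v : ℝ) * ((x / y) • (x⁻¹ • z)) v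
      = (x / y) * ∑ v, (a v : ℝ) * (x⁻¹ • z) v := by
    rw [Finset.mul_sum]
    refine Finset.sum_congr rfl fun v _ => ?_
    rw [Pi.smul_apply, smul_eq_mul]; ring
  rw [h2]
  have h3 := hz.2
  have h4 : 0 ≤ ∑ v, (a v : ℝ) * (x⁻¹ • z) v :=
    Finset.sum_nonneg fun v _ => mul_nonneg (Nat.cast_nonneg _) (hz.1 v)
  nlinarith

theorem sx_pos {ι : Type} [Fintype ι] (a : ι → ℕ) (ha : ∀ i, 1 ≤ a i) :
    0 < volume.real (sx a) := by
  classical
  -- contains a cube
  set S : ℝ := ∑ v, (a v : ℝ) with hS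
  have hS0 : 0 ≤ S := Finset.sum_nonneg fun v _ => Nat.cast_nonneg _
  set δ : ℝ := 1 / (S + 1) with hδ
  have hδ0 : 0 < δ := by positivity
  have hsub : Set.Icc (0 : ι → ℝ) (fun _ => δ) ⊆ sx a := by
    intro x hx
    refine ⟨fun v => hx.1 v, ?_⟩
    calc ∑ v, (a v : ℝ) * x v ≤ ∑ v, (a v : ℝ) * δ :=
          Finset.sum_le_sum fun v _ => mul_le_mul_of_nonneg_left (hx.2 v) (Nat.cast_nonneg _)
      _ = S * δ := by rw [← Finset.sum_mul]
      _ ≤ 1 := by
          rw [hδ, mul_one_div, div_le_one (by positivity)]; linarith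
  have hvol : volume.real (Set.Icc (0 : ι → ℝ) (fun _ => δ)) = δ ^ Fintype.card ι := by
    rw [measureReal_def, Real.volume_Icc_pi_toReal]
    · simp
    · intro i; simpa using hδ0.le
  have hfin : volume (sx a) ≠ ⊤ := (sx_bdd a ha).measure_lt_top.ne
  have := measureReal_mono hsub hfin
  rw [hvol] at this
  exact lt_of_lt_of_le (by positivity) this

theorem card_eq {ι : Type} [Fintype ι] (a : ι → ℕ) (Y : ℝ) (hY : 0 < Y) :
    ({i : ι → ℕ | ∑ v, (a v : ℝ) * i v ≤ Y} : Set (ι → ℕ)).ncard =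
    Nat.card ↑(sx a ∩ Y⁻¹ • (Submodule.span ℤ (Set.range (Pi.basisFun ℝ ι)) : Set (ι → ℝ))) := by
  rw [← Nat.card_coe_set_eq]
  refine Nat.card_congr (Equiv.ofBijective
    (fun i => ⟨fun v => Y⁻¹ * (i.1 v : ℝ), ?_, ?_⟩) ⟨?_, ?_⟩)
  · have hi := i.2
    refine ⟨fun v => by positivity, ?_⟩
    have : ∑ v, (a v : ℝ) * (Y⁻¹ * (i.1 v : ℝ)) = Y⁻¹ * ∑ v, (a v : ℝ) * i.1 v := by
      rw [Finset.mul_sum]
      exact Finset.sum_congr rfl fun v _ => by ring
    rw [this, inv_mul_le_iff₀ hY, mul_one]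
    exact hi
  · refine ⟨fun v => (i.1 v : ℝ), ?_, ?_⟩
    · rw [SetLike.mem_coe, Module.Basis.mem_span_iff_repr_mem]
      intro v
      exact ⟨(i.1 v : ℤ), by simp⟩
    · ext v; simp
  · intro i j hij
    apply Subtype.ext
    funext v
    have := congrFun (congrArg Subtype.val hij) v
    simp only at this
    have h2 := mul_left_cancel₀ (inv_ne_zero hY.ne') this
    exact_mod_cast h2
  · rintro ⟨x, hx1, y, hy, rfl⟩
    rw [SetLike.mem_coe, Module.Basis.mem_span_iff_repr_mem] at hy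
    choose m hm using hy
    simp only [Pi.basisFun_repr] at hm
    have hm0 : ∀ v, 0 ≤ m v := by
      intro v
      have h1 := hx1.1 v
      simp only [Pi.smul_apply, smul_eq_mul] at h1
      have h2 : 0 ≤ y v := by
        by_contra hneg
        push Not at hneg
        have := mul_neg_of_pos_of_neg (inv_pos.mpr hY) hneg
        linarith
      have h3 : (0 : ℝ) ≤ (m v : ℝ) := by
        have := hm v
        simp only [algebraMap_int_eq, eq_intCast] at this
        rw [this]; exact h2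
      exact_mod_cast h3
    have hmy : ∀ v, ((m v).toNat : ℝ) = y v := by
      intro v
      have h1 : ((m v).toNat : ℝ) = ((m v : ℤ) : ℝ) := by
        have := Int.toNat_of_nonneg (hm0 v)
        exact_mod_cast congrArg (Int.cast (R := ℝ)) this
      rw [h1]
      have := hm v
      simpa only [algebraMap_int_eq, eq_intCast] using this
    refine ⟨⟨fun v => (m v).toNat, ?_⟩, ?_⟩
    · show ∑ v, (a v : ℝ) * ((m v).toNat : ℝ) ≤ Y
      have h := hx1.2
      simp only [Pi.smul_apply, smul_eq_mul] at h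
      have : ∑ v, (a v : ℝ) * (Y⁻¹ * y v) = Y⁻¹ * ∑ v, (a v : ℝ) * ((m v).toNat : ℝ) := by
        rw [Finset.mul_sum]
        exact Finset.sum_congr rfl fun v _ => by rw [hmy]; ring
      rw [this, inv_mul_le_iff₀ hY, mul_one] at h
      exact h
    · apply Subtype.ext
      funext v
      simp only [Pi.smul_apply, smul_eq_mul]
      rw [hmy]

/-- MM/F -/
theorem simP : Pool.Agent.N852.MM.SimP := by
  intro ι _ a ha
  refine ⟨volume.real (sx a), sx_pos a ha, ?_⟩
  have h := tendsto_card_div_pow_atTop_volume' (sx a) (sx_bdd a ha) (sx_closed a).measurableSet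
    ((sx_convex a).addHaar_frontier volume) (fun x y hx hxy => sx_mono a x y hx hxy)
  refine h.congr' ?_
  filter_upwards [eventually_gt_atTop 0] with Y hY
  rw [card_eq a Y hY]

end Pool.Agent.N717.MM
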